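import Mathlib
import Pool.Agent.Y920.EP.Stm

/-!
Counting in an abelian group.
-/

set_option autoImplicit false

namespace Pool.Agent.Y79.EP

theorem t_FIB : Pool.Agent.Y920.EP.S_FIB := by
  intro A _ _ Nn N hsym hself hfin X D f m hD hm hX
  classical
  let E : A → Finset A := fun a => if h : a ≠ 1 then (hfin a h).1.toFinset else ∅
  have hE : ∀ a, (E a).card ≤ N := by
    intro a
    by_cases h : a ≠ 1
    · have : E a = (hfin a h).1.toFinset := dif_pos h
      rw [this, ← Set.ncard_eq_toFinset_card _ (hfin a h).1]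
      exact (hfin a h).2
    · have : E a = ∅ := dif_neg h
      rw [this]
      simp
  have hmemE : ∀ a b, a ≠ 1 → b ∈ Nn a → b ∈ E a := by
    intro a b ha hb
    have : E a = (hfin a ha).1.toFinset := dif_pos ha
    rw [this, Set.Finite.mem_toFinset]
    exact hb
  have hfib : ∀ g ∈ X.image f, (X.filter fun a => f a = g).card ≤ N ^ 3 + N + 2 := by
    intro g _
    have hsub : (X.filter fun a => f a = g) ⊆
        (({g, g⁻¹} : Finset A) ∪ D.biUnion fun d => E (d⁻¹ * g)) ∪ E g := by
      intro a ha
      rw [Finset.mem_filter] at ha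
      obtain ⟨haX, hag⟩ := ha
      obtain ⟨-, h⟩ := hX a haX
      rw [Finset.mem_union, Finset.mem_union]
      rcases h with h | h | ⟨d, hd, n, hn, hn1, h⟩ | ⟨h, h1⟩
      · left
        left
        rw [← hag, h]
        simp
      · left
        left
        rw [← hag, h]
        simp
      · left
        right
        rw [Finset.mem_biUnion]
        refine ⟨d, hd, ?_⟩
        have e : d⁻¹ * g = n := by rw [← hag, h, inv_mul_cancel_left]
        rw [e]
        exact hmemE n a hn1 (hsym a n hn)
      · right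
        rw [hag] at h h1
        exact hmemE g a h1 (hsym a g h)
    refine (Finset.card_le_card hsub).trans ((Finset.card_union_le _ _).trans ?_)
    have h1 : (D.biUnion fun d => E (d⁻¹ * g)).card ≤ N ^ 3 := by
      calc (D.biUnion fun d => E (d⁻¹ * g)).card ≤ ∑ d ∈ D, (E (d⁻¹ * g)).card :=
            Finset.card_biUnion_le
        _ ≤ ∑ d ∈ D, N := Finset.sum_le_sum fun d _ => hE _
        _ = D.card * N := by rw [Finset.sum_const, smul_eq_mul]
        _ ≤ N ^ 2 * N := Nat.mul_le_mul_right _ hD
        _ = N ^ 3 := by ring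
    have h2 : (({g, g⁻¹} : Finset A)).card ≤ 2 := Finset.card_le_two
    have h3 := Finset.card_union_le ({g, g⁻¹} : Finset A) (D.biUnion fun d => E (d⁻¹ * g))
    have h4 := hE g
    omega
  have := Finset.card_le_mul_card_image X (N ^ 3 + N + 2) hfib
  calc X.card ≤ (N ^ 3 + N + 2) * (X.image f).card := this
    _ ≤ (N ^ 3 + N + 2) * m := Nat.mul_le_mul_left _ hm
    _ = m * (N ^ 3 + N + 2) := Nat.mul_comm _ _

theorem t_PICK : Pool.Agent.Y920.EP.S_PICK := by
  intro A _ z p N hp hz X hX
  classical
  let c : A → Finset A := fun a => (Finset.range p).image fun k => z ^ k * a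
  have hmod : ∀ k, z ^ k = z ^ (k % p) := by
    intro k
    conv_lhs => rw [← Nat.div_add_mod k p, pow_add, pow_mul, hz, one_pow, one_mul]
  have mem_c : ∀ a b, b ∈ c a ↔ ∃ k : ℕ, b = z ^ k * a := by
    intro a b
    rw [Finset.mem_image]
    constructor
    · rintro ⟨k, -, rfl⟩
      exact ⟨k, rfl⟩
    · rintro ⟨k, rfl⟩
      exact ⟨k % p, Finset.mem_range.2 (Nat.mod_lt _ (by omega)), by rw [← hmod]⟩
  have hcc : ∀ (k : ℕ) (a : A), c (z ^ k * a) = c a := by
    intro k a
    ext b
    rw [mem_c, mem_c]
    constructor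
    · rintro ⟨l, rfl⟩
      exact ⟨l + k, by rw [pow_add, mul_assoc]⟩
    · rintro ⟨l, rfl⟩
      refine ⟨l + (p - 1) * k, ?_⟩
      rw [← mul_assoc, ← pow_add]
      congr 1
      have : l + (p - 1) * k + k = l + p * k := by
        obtain ⟨q, rfl⟩ : ∃ q, p = q + 1 := ⟨p - 1, by omega⟩
        rw [Nat.add_sub_cancel]
        ring
      rw [this, pow_add, pow_mul, hz, one_pow, mul_one]
  have hself : ∀ a, a ∈ c a := fun a => (mem_c a a).2 ⟨0, by rw [pow_zero, one_mul]⟩
  have hcard : X.card ≤ p * (X.image c).card := by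
    apply Finset.card_le_mul_card_image
    intro s hs
    obtain ⟨a0, -, rfl⟩ := Finset.mem_image.1 hs
    have : (X.filter fun a => c a = c a0) ⊆ c a0 := by
      intro a ha
      rw [Finset.mem_filter] at ha
      rw [← ha.2]
      exact hself a
    refine (Finset.card_le_card this).trans (Finset.card_image_le.trans ?_)
    rw [Finset.card_range]
  have hN : N ≤ (X.image c).card := by
    have : p * N < p * (X.image c).card := lt_of_lt_of_le hX hcard
    exact (Nat.lt_of_mul_lt_mul_left this).le
  let e := (X.image c).equivFin.symm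
  have hch : ∀ i : Fin N, ∃ a ∈ X, c a = (e (Fin.castLE hN i)).1 := by
    intro i
    obtain ⟨a, ha, h⟩ := Finset.mem_image.1 (e (Fin.castLE hN i)).2
    exact ⟨a, ha, h⟩
  choose f hfX hfc using hch
  refine ⟨f, hfX, fun i j hij k h => hij ?_⟩
  have h1 : c (f i) = c (f j) := by rw [h, hcc]
  rw [hfc, hfc] at h1
  have h2 := e.injective (Subtype.ext h1)
  exact Fin.castLE_injective hN h2

end Pool.Agent.Y79.EP
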